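import Pool.Agent.Y271.TI.Gen
import Pool.Agent.W658.Cone

/-!
# The unitised cone over the Cuntz algebra is stably finite, and is not locally approximable by
type I subalgebras
-/

set_option autoImplicit false

open scoped ComplexOrder InnerProductSpace

noncomputable section

namespace Pool.Agent.Y271.TI

open Pool.Agent.W658.TypeI Pool.Agent.W658.Cone

/-- an idempotent matrix with small entries vanishes -/
lemma idem_zero {R : Type} [NormedRing R] {n : ℕ} (p : Matrix (Fin n) (Fin n) R) (hp : p * p = p)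
    (h : ∀ i j, (n : ℝ) * ‖p i j‖ < 1) : p = 0 := by
  rcases Nat.eq_zero_or_pos n with hn | hn
  · subst hn
    ext i
    exact i.elim0
  haveI : Nonempty (Fin n) := ⟨⟨0, hn⟩⟩
  obtain ⟨⟨i0, j0⟩, hmax⟩ := Finite.exists_max (fun x : Fin n × Fin n => ‖p x.1 x.2‖)
  have hmax' : ∀ i j, ‖p i j‖ ≤ ‖p i0 j0‖ := fun i j => hmax (i, j)
  have h1 : ‖p i0 j0‖ ≤ (n : ℝ) * ‖p i0 j0‖ * ‖p i0 j0‖ := by
    calc ‖p i0 j0‖ = ‖(p * p) i0 j0‖ := by rw [hp]
      _ = ‖∑ k, p i0 k * p k j0‖ := by rw [Matrix.mul_apply]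
      _ ≤ ∑ k : Fin n, ‖p i0 k * p k j0‖ := norm_sum_le _ _
      _ ≤ ∑ _k : Fin n, ‖p i0 j0‖ * ‖p i0 j0‖ := by
          refine Finset.sum_le_sum fun k _ => ?_
          refine (norm_mul_le _ _).trans ?_
          exact mul_le_mul (hmax' _ _) (hmax' _ _) (norm_nonneg _) (norm_nonneg _)
      _ = (n : ℝ) * ‖p i0 j0‖ * ‖p i0 j0‖ := by
          rw [Finset.sum_const, Finset.card_univ, Fintype.card_fin, nsmul_eq_mul, mul_assoc]
  have h2 := h i0 j0
  have h3 : ‖p i0 j0‖ ≤ 0 := by
    by_contra hc
    push Not at hc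
    nlinarith
  ext i j
  have h4 : ‖p i j‖ ≤ 0 := (hmax' i j).trans h3
  rw [Matrix.zero_apply]
  exact norm_le_zero_iff.1 h4

lemma nontrivial_BH : Nontrivial BH := by
  refine ⟨1, 0, fun h => ?_⟩
  have h1 : (1 : BH) xi = (0 : BH) xi := by rw [h]
  have h2 : xi = 0 := h1
  have h3 := norm_xi
  rw [h2, norm_zero] at h3
  exact zero_ne_one h3

lemma stablyFinite_CA : IsStablyFinite CA := by
  have hnt : Nontrivial BH := nontrivial_BH
  intro n v hv
  let w : unitInterval → Matrix (Fin n) (Fin n) BH := fun t => v.map (ev t)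
  have hw : ∀ t, star (w t) * w t = 1 := by
    intro t
    have h1 : star (w t) = (star v).map (ev t) := by
      ext i j
      simp only [w, Matrix.star_apply, Matrix.map_apply, map_star]
    rw [h1]
    ext1 i j
    have h2 := congrArg (fun m : Matrix (Fin n) (Fin n) CA => ev t (m i j)) hv
    simp only [Matrix.mul_apply, map_sum, map_mul] at h2
    rw [Matrix.mul_apply]
    simp only [Matrix.map_apply, w]
    rw [h2, Matrix.one_apply, Matrix.one_apply]
    split_ifs
    · rfl
    · exact map_zero _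
  let p : unitInterval → Matrix (Fin n) (Fin n) BH := fun t => 1 - w t * star (w t)
  have hpp : ∀ t, p t * p t = p t := by
    intro t
    have h1 : w t * star (w t) * (w t * star (w t)) = w t * star (w t) := by
      rw [Matrix.mul_assoc, ← Matrix.mul_assoc (star (w t)), hw, Matrix.one_mul]
    show (1 - w t * star (w t)) * (1 - w t * star (w t)) = 1 - w t * star (w t)
    rw [Matrix.mul_sub, Matrix.sub_mul, Matrix.sub_mul, h1, Matrix.one_mul, Matrix.mul_one,
      Matrix.one_mul, sub_self, sub_zero]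
  have hwc : ∀ i j, Continuous fun t => w t i j := by
    intro i j
    show Continuous fun t => ((v i j : CA) : CB) t
    fun_prop
  have hpc : ∀ i j, Continuous fun t => p t i j := by
    intro i j
    have : (fun t => p t i j) = fun t => (1 : Matrix (Fin n) (Fin n) BH) i j -
        ∑ k, w t i k * star (w t j k) := by
      funext t
      simp only [p, Matrix.sub_apply, Matrix.mul_apply, Matrix.star_apply]
    rw [this]
    have hs : ∀ k, Continuous fun t => star (w t j k) := fun k => (hwc j k).star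
    have hs2 : ∀ k, Continuous fun t => w t i k * star (w t j k) := fun k => (hwc i k).mul (hs k)
    exact continuous_const.sub (continuous_finsetSum _ fun k _ => hs2 k)
  have hp0 : p 0 = 0 := by
    have hsc : ∀ i j, ∃ c : ℂ, w 0 i j = c • (1 : BH) := fun i j => (v i j).2.2
    choose c hc using hsc
    let C : Matrix (Fin n) (Fin n) ℂ := Matrix.of c
    have hwC : w 0 = C.map (algebraMap ℂ BH) := by
      ext1 i j
      rw [hc, Matrix.map_apply, Algebra.algebraMap_eq_smul_one]
      rfl
    have hwC' : star (w 0) = (star C).map (algebraMap ℂ BH) := by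
      ext1 i j
      rw [Matrix.star_apply, Matrix.map_apply, Matrix.star_apply, hc, star_smul, star_one,
        Algebra.algebraMap_eq_smul_one]
      rfl
    have h1 : star C * C = 1 := by
      have h2 := hw 0
      rw [hwC', hwC, ← Matrix.map_mul] at h2
      have h3 : (star C * C).map (algebraMap ℂ BH) = (1 : Matrix (Fin n) (Fin n) ℂ).map
          (algebraMap ℂ BH) := by
        rw [h2, Matrix.map_one _ (map_zero _) (map_one _)]
      exact Matrix.map_injective (algebraMap ℂ BH).injective h3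
    have h2 : C * star C = 1 := mul_eq_one_comm.1 h1
    show 1 - w 0 * star (w 0) = 0
    rw [hwC', hwC, ← Matrix.map_mul, h2, Matrix.map_one _ (map_zero _) (map_one _), sub_self]
  have hclopen : IsClopen {t | p t = 0} := by
    constructor
    · have : {t | p t = 0} = ⋂ i, ⋂ j, {t | p t i j = 0} := by
        ext t
        simp only [Set.mem_iInter, Set.mem_ofPred_eq]
        constructor
        · intro h i j
          rw [h]
          rfl
        · intro h
          ext1 i j
          exact h i j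
      rw [this]
      exact isClosed_iInter fun i => isClosed_iInter fun j =>
        isClosed_eq (hpc i j) continuous_const
    · rw [isOpen_iff_mem_nhds]
      intro t ht
      have ht' : p t = 0 := ht
      have h1 : ∀ i j, ∀ᶠ s in nhds t, (n : ℝ) * ‖p s i j‖ < 1 := by
        intro i j
        have h2 : Filter.Tendsto (fun s => (n : ℝ) * ‖p s i j‖) (nhds t)
            (nhds ((n : ℝ) * ‖p t i j‖)) :=
          ((continuous_const.mul (hpc i j).norm).tendsto t)
        refine h2.eventually (gt_mem_nhds ?_)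
        rw [ht', Matrix.zero_apply, norm_zero, mul_zero]
        exact zero_lt_one
      have h2 : ∀ᶠ s in nhds t, ∀ i j, (n : ℝ) * ‖p s i j‖ < 1 := by
        rw [Filter.eventually_all]
        intro i
        rw [Filter.eventually_all]
        intro j
        exact h1 i j
      refine Filter.mem_of_superset h2 ?_
      intro s hs
      exact idem_zero (p s) (hpp s) hs
  have huniv : {t | p t = 0} = Set.univ := by
    rcases isClopen_iff.1 hclopen with h | h
    · exfalso
      have : (0 : unitInterval) ∈ {t | p t = 0} := hp0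
      rw [h] at this
      exact this
    · exact h
  have hall : ∀ t, w t * star (w t) = 1 := by
    intro t
    have h1 : t ∈ {t | p t = 0} := by rw [huniv]; trivial
    have h2 : 1 - w t * star (w t) = 0 := h1
    exact (sub_eq_zero.1 h2).symm
  ext1 i j
  refine CA_ext fun t => ?_
  have h1 := congrArg (fun m : Matrix (Fin n) (Fin n) BH => m i j) (hall t)
  simp only [Matrix.mul_apply, Matrix.star_apply, w, Matrix.map_apply] at h1
  rw [Matrix.mul_apply, map_sum]
  simp only [Matrix.star_apply, map_mul, map_star]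
  rw [h1, Matrix.one_apply, Matrix.one_apply]
  split_ifs
  · rfl
  · exact (map_zero _).symm

/-- the function `t ↦ t` -/
def idt : C(unitInterval, ℝ) := ⟨fun t => (t : ℝ), by fun_prop⟩

lemma s_mem_O2 (b : Bool) : s b ∈ O2 := by
  have h := S_mem_O2 [b]
  rwa [S_cons, S_nil, mul_one] at h

/-- the element `t ↦ t s_b` of the cone -/
def gen (b : Bool) : CA := ⟨el idt (s b), el_mem (s_mem_O2 b) rfl⟩

lemma ev_gen (b : Bool) : ev 1 (gen b) = s b := by
  show (((1 : unitInterval) : ℝ) : ℂ) • s b = s b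
  rw [show ((1 : unitInterval) : ℝ) = 1 from rfl]
  rw [Complex.ofReal_one, one_smul]

/-- if `y` is close to an isometry then `y* y` is close to `1` -/
lemma close_iso {D : Type} [CStarAlgebra D] {y a : D} (ha : star a * a = 1) (hn : ‖a‖ ≤ 1)
    (h : ‖a - y‖ ≤ 1 / 100) : ‖star y * y - 1‖ ≤ 1 / 8 := by
  have hy : ‖y‖ ≤ 1 + 1 / 100 := by
    calc ‖y‖ = ‖a - (a - y)‖ := by rw [sub_sub_cancel]
      _ ≤ ‖a‖ + ‖a - y‖ := norm_sub_le _ _
      _ ≤ _ := add_le_add hn h
  have e : star y * y - 1 = -(star (a - y) * y) - star a * (a - y) := by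
    rw [← ha, star_sub, sub_mul, mul_sub]
    abel
  rw [e]
  calc ‖-(star (a - y) * y) - star a * (a - y)‖ ≤ ‖star (a - y) * y‖ + ‖star a * (a - y)‖ := by
        refine (norm_sub_le _ _).trans ?_
        rw [norm_neg]
    _ ≤ ‖star (a - y)‖ * ‖y‖ + ‖star a‖ * ‖a - y‖ := add_le_add (norm_mul_le _ _) (norm_mul_le _ _)
    _ = ‖a - y‖ * ‖y‖ + ‖a‖ * ‖a - y‖ := by rw [norm_star, norm_star]
    _ ≤ 1 / 100 * (1 + 1 / 100) + 1 * (1 / 100) := by gcongr
    _ ≤ 1 / 8 := by norm_num

lemma close_orth {D : Type} [CStarAlgebra D] {y z a b : D} (hab : star a * b = 0) (hn : ‖a‖ ≤ 1)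
    (hm : ‖b‖ ≤ 1) (h : ‖a - y‖ ≤ 1 / 100) (k : ‖b - z‖ ≤ 1 / 100) : ‖star y * z‖ ≤ 1 / 8 := by
  have hy : ‖z‖ ≤ 1 + 1 / 100 := by
    calc ‖z‖ = ‖b - (b - z)‖ := by rw [sub_sub_cancel]
      _ ≤ ‖b‖ + ‖b - z‖ := norm_sub_le _ _
      _ ≤ _ := add_le_add hm k
  have e : star y * z = -(star (a - y) * z) - star a * (b - z) := by
    rw [star_sub, sub_mul, mul_sub, hab]
    abel
  rw [e]
  calc ‖-(star (a - y) * z) - star a * (b - z)‖ ≤ ‖star (a - y) * z‖ + ‖star a * (b - z)‖ := by
        refine (norm_sub_le _ _).trans ?_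
        rw [norm_neg]
    _ ≤ ‖star (a - y)‖ * ‖z‖ + ‖star a‖ * ‖b - z‖ := add_le_add (norm_mul_le _ _) (norm_mul_le _ _)
    _ = ‖a - y‖ * ‖z‖ + ‖a‖ * ‖b - z‖ := by rw [norm_star, norm_star]
    _ ≤ 1 / 100 * (1 + 1 / 100) + 1 * (1 / 100) := by gcongr
    _ ≤ 1 / 8 := by norm_num

lemma norm_s_le (b : Bool) : ‖s b‖ ≤ 1 := by
  have h : ‖s b‖ * ‖s b‖ = 1 := by
    rw [← CStarRing.norm_star_mul_self, star_s_mul_s_self]
    haveI : Nontrivial BH := nontrivial_BH
    exact norm_one
  nlinarith [norm_nonneg (s b)]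

/-- no *-subalgebra of the unitised cone over the Cuntz algebra (closed or not) which comes within
`1 / 100` of the two elements `t ↦ t s_b` is of type I -/
theorem not_typeI_of_close (B : NonUnitalStarSubalgebra ℂ CA)
    (h : ∀ b, ∃ y ∈ B, ‖gen b - y‖ < 1 / 100) : ¬ IsTypeI B := by
  obtain ⟨y, hy, hyn⟩ := h false
  obtain ⟨z, hz, hzn⟩ := h true
  have h1 : ‖s false - ev 1 y‖ ≤ 1 / 100 := by
    rw [← ev_gen, ← map_sub]
    exact (NonUnitalStarAlgHom.norm_apply_le _ _).trans hyn.le
  have h2 : ‖s true - ev 1 z‖ ≤ 1 / 100 := by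
    rw [← ev_gen, ← map_sub]
    exact (NonUnitalStarAlgHom.norm_apply_le _ _).trans hzn.le
  exact not_typeI (ev 1) B ⟨y, hy⟩ ⟨z, hz⟩
    (close_iso (star_s_mul_s_self _) (norm_s_le _) h1)
    (close_iso (star_s_mul_s_self _) (norm_s_le _) h2)
    (close_orth (star_s_mul_s_ne (by decide)) (norm_s_le _) (norm_s_le _) h1 h2)
    nontrivial_BH

theorem not_locallyTypeI_CA : ¬ LocallyTypeI CA := by
  classical
  intro h
  obtain ⟨B, -, hB, hF⟩ := h {gen false, gen true} (1 / 100) (by norm_num)
  refine not_typeI_of_close B ?_ hB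
  intro b
  apply hF
  cases b <;> simp

end Pool.Agent.Y271.TI
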