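import Pool.Agent.Y271.TI.Irr

/-!
# Subalgebras that are close to two isometries with orthogonal ranges are not of type I
-/

set_option autoImplicit false

open scoped ComplexOrder InnerProductSpace

noncomputable section

namespace Pool.Agent.Y271.TI

open Pool.Agent.W658.TypeI

/-- two approximate isometries with approximately orthogonal ranges do not exist on a nonzero
finite-dimensional space -/
lemma no_fin {K : Type} [NormedAddCommGroup K] [InnerProductSpace ℂ K] [CompleteSpace K]
    [FiniteDimensional ℂ K] [Nontrivial K] (a b : K →L[ℂ] K)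
    (haa : ‖star a * a - 1‖ ≤ 1 / 8) (hbb : ‖star b * b - 1‖ ≤ 1 / 8)
    (hab : ‖star a * b‖ ≤ 1 / 8) (hba : ‖star b * a‖ ≤ 1 / 8) : False := by
  let L : K × K →ₗ[ℂ] K :=
    { toFun := fun p => a p.1 + b p.2
      map_add' := by
        intro p q
        simp only [Prod.fst_add, Prod.snd_add, map_add]
        abel
      map_smul' := by
        intro c p
        simp only [Prod.smul_fst, Prod.smul_snd, map_smul, RingHom.id_apply, smul_add] }
  have hinj : Function.Injective L := by
    rw [← LinearMap.ker_eq_bot, LinearMap.ker_eq_bot']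
    rintro ⟨u, v⟩ h
    have h0 : a u + b v = 0 := h
    have h1 : (star a * a) u + (star a * b) v = 0 := by
      have := congrArg (fun x => (star a : K →L[ℂ] K) x) h0
      simp only [map_add, map_zero] at this
      exact this
    have h2 : (star b * a) u + (star b * b) v = 0 := by
      have := congrArg (fun x => (star b : K →L[ℂ] K) x) h0
      simp only [map_add, map_zero] at this
      exact this
    have e1 : u = -((star a * a - 1) u) - (star a * b) v := by
      have : (star a * a - 1) u = (star a * a) u - u := rfl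
      rw [this]
      have h3 : (star a * a) u = -((star a * b) v) := eq_neg_of_add_eq_zero_left h1
      rw [h3]
      abel
    have e2 : v = -((star b * b - 1) v) - (star b * a) u := by
      have : (star b * b - 1) v = (star b * b) v - v := rfl
      rw [this]
      have h3 : (star b * b) v = -((star b * a) u) := eq_neg_of_add_eq_zero_right h2
      rw [h3]
      abel
    have n1 : ‖u‖ ≤ 1 / 8 * ‖u‖ + 1 / 8 * ‖v‖ := by
      calc ‖u‖ = ‖-((star a * a - 1) u) - (star a * b) v‖ := by rw [← e1]
        _ ≤ ‖(star a * a - 1) u‖ + ‖(star a * b) v‖ := by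
            refine (norm_sub_le _ _).trans ?_
            rw [norm_neg]
        _ ≤ ‖star a * a - 1‖ * ‖u‖ + ‖star a * b‖ * ‖v‖ :=
            add_le_add (ContinuousLinearMap.le_opNorm _ _) (ContinuousLinearMap.le_opNorm _ _)
        _ ≤ _ := by gcongr
    have n2 : ‖v‖ ≤ 1 / 8 * ‖v‖ + 1 / 8 * ‖u‖ := by
      calc ‖v‖ = ‖-((star b * b - 1) v) - (star b * a) u‖ := by rw [← e2]
        _ ≤ ‖(star b * b - 1) v‖ + ‖(star b * a) u‖ := by
            refine (norm_sub_le _ _).trans ?_
            rw [norm_neg]
        _ ≤ ‖star b * b - 1‖ * ‖v‖ + ‖star b * a‖ * ‖u‖ :=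
            add_le_add (ContinuousLinearMap.le_opNorm _ _) (ContinuousLinearMap.le_opNorm _ _)
        _ ≤ _ := by gcongr
    have hu : ‖u‖ = 0 := by
      have := norm_nonneg u
      have := norm_nonneg v
      linarith
    have hv : ‖v‖ = 0 := by
      have := norm_nonneg u
      have := norm_nonneg v
      linarith
    rw [norm_eq_zero] at hu hv
    rw [hu, hv]
    rfl
  have h1 := LinearMap.finrank_le_finrank_of_injective hinj
  rw [Module.finrank_prod] at h1
  have h2 : 0 < Module.finrank ℂ K := Module.finrank_pos
  omega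

/-- **Main lemma.** Let `q : A → D` be a *-homomorphism and let `B ⊆ A` be a *-subalgebra which
has elements whose images are close to two isometries with orthogonal ranges. Then `B` is not of
type I. -/
theorem not_typeI {D A : Type} [CStarAlgebra D] [CStarAlgebra A] (q : A →⋆ₙₐ[ℂ] D)
    (B : NonUnitalStarSubalgebra ℂ A) (y z : B)
    (hyy : ‖star (q y) * q y - 1‖ ≤ 1 / 8) (hzz : ‖star (q z) * q z - 1‖ ≤ 1 / 8)
    (hyz : ‖star (q y) * q z‖ ≤ 1 / 8) (hnt : Nontrivial D) : ¬ IsTypeI B := by
  intro hB
  -- the closure of the image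
  have hzy : ‖star (q z) * q y‖ ≤ 1 / 8 := by
    have : star (star (q y) * q z) = star (q z) * q y := by rw [star_mul, star_star]
    rw [← this, norm_star]
    exact hyz
  let Q : NonUnitalStarSubalgebra ℂ D := (B.map q).topologicalClosure
  have hQcl : IsClosed (Q : Set D) := NonUnitalStarSubalgebra.isClosed_topologicalClosure _
  have hQ : ∀ b : B, q b ∈ Q := fun b =>
    NonUnitalStarSubalgebra.le_topologicalClosure _ ⟨b, b.2, rfl⟩
  have h1Q : (1 : D) ∈ Q := by
    let a : D := star (q y) * q y
    have ha : a ∈ Q := mul_mem (star_mem (hQ y)) (hQ y)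
    have h2 : ∀ n : ℕ, 1 - (1 - a) ^ (n + 1) ∈ Q := by
      intro n
      induction n with
      | zero =>
        rw [zero_add, pow_one, sub_sub_cancel]
        exact ha
      | succ n ih =>
        have e : 1 - (1 - a) ^ (n + 1 + 1) = (1 - (1 - a) ^ (n + 1)) + a -
            (1 - (1 - a) ^ (n + 1)) * a := by
          rw [pow_succ (1 - a) (n + 1)]
          noncomm_ring
        rw [e]
        exact sub_mem (add_mem ih ha) (mul_mem ih ha)
    have h3 : ‖1 - a‖ < 1 := by
      rw [norm_sub_rev]
      exact lt_of_le_of_lt hyy (by norm_num)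
    have h4 : Filter.Tendsto (fun n : ℕ => 1 - (1 - a) ^ (n + 1)) Filter.atTop (nhds (1 - 0)) :=
      Filter.Tendsto.const_sub 1
        ((tendsto_pow_atTop_nhds_zero_of_norm_lt_one h3).comp (Filter.tendsto_add_atTop_nat 1))
    rw [sub_zero] at h4
    exact hQcl.mem_of_tendsto h4 (Filter.Eventually.of_forall h2)
  let R : StarSubalgebra ℂ D := Q.toStarSubalgebra h1Q
  have hRcl : IsClosed (R : Set D) := hQcl
  letI : CStarAlgebra R := StarSubalgebra.cstarAlgebra R (h_closed := hRcl)
  haveI : Nontrivial R := ⟨1, 0, fun h => one_ne_zero (congrArg Subtype.val h : (1 : D) = 0)⟩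
  obtain ⟨M, hMI, hMcl, hM1, hMmax⟩ := exists_max_ideal R
  obtain ⟨K, _, _, _, σ, hσ1, hK, hσM, hσc⟩ := exists_irr_kill M hMI hMcl hM1
  have hσcont : Continuous σ :=
    (AddMonoidHomClass.continuous_of_bound σ 1 (fun x => by
      rw [one_mul]; exact NonUnitalStarAlgHom.norm_apply_le σ x))
  let j : B →⋆ₙₐ[ℂ] R :=
    { toFun := fun b => ⟨q b, hQ b⟩
      map_smul' := fun r x => Subtype.ext (map_smul q r (x : A))
      map_zero' := Subtype.ext (map_zero q)
      map_add' := fun x y => Subtype.ext (map_add q (x : A) (y : A))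
      map_mul' := fun x y => Subtype.ext (map_mul q (x : A) (y : A))
      map_star' := fun x => Subtype.ext (map_star q (x : A)) }
  have hjd : Dense (Set.range j) := by
    intro x
    rw [Metric.mem_closure_iff]
    intro ε hε
    have hx : (x : D) ∈ closure ((B.map q : NonUnitalStarSubalgebra ℂ D) : Set D) := x.2
    rw [Metric.mem_closure_iff] at hx
    obtain ⟨w, ⟨c, hc, hw⟩, hxy⟩ := hx ε hε
    refine ⟨j ⟨c, hc⟩, ⟨⟨c, hc⟩, rfl⟩, ?_⟩
    rw [Subtype.dist_eq]
    show dist (x : D) (q c) < ε
    have : q c = w := hw
    rw [this]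
    exact hxy
  let π : B →⋆ₙₐ[ℂ] (K →L[ℂ] K) := σ.comp j
  have hπ : ∀ b, π b = σ (j b) := fun b => rfl
  -- estimates
  have hc1 : ‖star (σ (j y)) * σ (j y) - 1‖ ≤ 1 / 8 := by
    rw [← hσ1, ← map_star, ← map_mul, ← map_sub]
    exact (NonUnitalStarAlgHom.norm_apply_le σ _).trans hyy
  have hc2 : ‖star (σ (j z)) * σ (j z) - 1‖ ≤ 1 / 8 := by
    rw [← hσ1, ← map_star, ← map_mul, ← map_sub]
    exact (NonUnitalStarAlgHom.norm_apply_le σ _).trans hzz
  have hc3 : ‖star (σ (j y)) * σ (j z)‖ ≤ 1 / 8 := by
    rw [← map_star, ← map_mul]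
    exact (NonUnitalStarAlgHom.norm_apply_le σ _).trans hyz
  have hc4 : ‖star (σ (j z)) * σ (j y)‖ ≤ 1 / 8 := by
    rw [← map_star, ← map_mul]
    exact (NonUnitalStarAlgHom.norm_apply_le σ _).trans hzy
  -- irreducibility
  have hirr : IsIrreducible π := by
    constructor
    · intro h
      have h2 : σ (j y) = 0 := by rw [← hπ, h]; rfl
      rw [h2, mul_zero, zero_sub, norm_neg, norm_one] at hc1
      norm_num at hc1
    · intro U hU hinv
      haveI : CompleteSpace U := hU.completeSpace_coe
      let P : K →L[ℂ] K := U.starProjection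
      have hinv2 : ∀ (b : B), ∀ x ∈ Uᗮ, π b x ∈ Uᗮ := by
        intro b x hx
        rw [Submodule.mem_orthogonal] at hx ⊢
        intro u hu
        have h2 : ⟪u, π b x⟫_ℂ = ⟪π (star b) u, x⟫_ℂ := by
          rw [map_star, ContinuousLinearMap.star_eq_adjoint,
            ContinuousLinearMap.adjoint_inner_left]
        rw [h2]
        exact hx _ (hinv _ _ hu)
      have hcommB : ∀ b : B, P * σ (j b) = σ (j b) * P := by
        intro b
        ext x
        show P (π b x) = π b (P x)
        have hx : x = P x + (x - P x) := by abel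
        have hPx : P x ∈ U := Submodule.starProjection_apply_mem U x
        have hPx2 : x - P x ∈ Uᗮ := Submodule.sub_starProjection_mem_orthogonal x
        have e1 : P (π b (P x)) = π b (P x) :=
          Submodule.starProjection_eq_self_iff.2 (hinv b _ hPx)
        have e2 : P (π b (x - P x)) = 0 := by
          have := hinv2 b _ hPx2
          exact (Submodule.starProjection_apply_eq_zero_iff U).2 this
        conv_lhs => rw [hx, map_add, map_add, e1, e2, add_zero]
      have hcommR : ∀ a : R, P * σ a = σ a * P := by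
        have hcl : IsClosed {a : R | P * σ a = σ a * P} :=
          isClosed_eq (by fun_prop) (by fun_prop)
        have hsub : Set.range j ⊆ {a : R | P * σ a = σ a * P} := by
          rintro _ ⟨c, rfl⟩
          exact hcommB c
        intro a
        exact (hcl.closure_subset_iff.2 hsub) (hjd a)
      obtain ⟨t, ht⟩ := hσc P hcommR
      by_cases ht0 : t = 0
      · left
        rw [eq_bot_iff]
        intro x hx
        have h2 : P x = x := Submodule.starProjection_eq_self_iff.2 hx
        rw [ht, ht0, zero_smul] at h2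
        rw [Submodule.mem_bot, ← h2]
        rfl
      · right
        rw [eq_top_iff]
        intro x _
        have h2 : P x ∈ U := Submodule.starProjection_apply_mem U x
        rw [ht] at h2
        have h3 : t • x ∈ U := h2
        have h4 := U.smul_mem t⁻¹ h3
        rwa [smul_smul, inv_mul_cancel₀ ht0, one_smul] at h4
  -- a compact operator in the range
  obtain ⟨e, he⟩ := exists_ne (0 : K)
  let T : K →L[ℂ] K := (innerSL ℂ e).smulRight e
  have hTe : T e ≠ 0 := by
    show (innerSL ℂ e e) • e ≠ 0
    rw [innerSL_apply_apply]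
    exact smul_ne_zero (inner_self_ne_zero.2 he) he
  have hTc : IsCompactOperator T := by
    have h2 : IsCompactOperator (innerSL ℂ e : K →L[ℂ] ℂ) := by
      exact isCompactOperator_of_locallyCompactSpace_dom (innerSL ℂ e : K →L[ℂ] ℂ)
    have h3 := h2.clm_comp (ContinuousLinearMap.toSpanSingleton ℂ e)
    exact h3
  obtain ⟨b, hb⟩ := hB K π hirr T hTc
  -- the ideal of compact operators
  let J : Set R := {c | IsCompactOperator (σ c)}
  have hJ : IsI J := by
    refine ⟨?_, ?_, ?_, ?_⟩
    · show IsCompactOperator (σ 0)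
      rw [map_zero]
      exact isCompactOperator_zero
    · intro x hx y hy
      show IsCompactOperator (σ (x + y))
      rw [map_add]
      exact IsCompactOperator.add hx hy
    · intro a x hx
      show IsCompactOperator (σ (a * x))
      rw [map_mul]
      exact IsCompactOperator.clm_comp hx (σ a)
    · intro a x hx
      show IsCompactOperator (σ (x * a))
      rw [map_mul]
      exact IsCompactOperator.comp_clm hx (σ a)
  have hMJ : M ⊆ J := by
    intro x hx
    show IsCompactOperator (σ x)
    rw [hσM x hx]
    exact isCompactOperator_zero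
  have hJb : j b ∈ J := by
    show IsCompactOperator (σ (j b))
    rw [← hπ, hb]
    exact hTc
  have hJM : J ≠ M := by
    intro h
    rw [h] at hJb
    have h2 := hσM _ hJb
    rw [← hπ, hb] at h2
    rw [h2] at hTe
    exact hTe rfl
  have hJ1 : (1 : R) ∈ J := by
    by_contra h
    exact hJM (hMmax J hJ h hMJ)
  have hid : IsCompactOperator (1 : K →L[ℂ] K) := by
    have : IsCompactOperator (σ 1) := hJ1
    rwa [hσ1] at this
  haveI : FiniteDimensional ℂ K := by
    have h2 : IsCompactOperator (id : K → K) := hid
    rw [isCompactOperator_id_iff_locallyCompactSpace] at h2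
    exact FiniteDimensional.of_locallyCompactSpace ℂ
  exact no_fin _ _ hc1 hc2 hc3 hc4

end Pool.Agent.Y271.TI
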