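import Pool.Agent.TH496.EI_Irr
import Pool.Agent.W658.TIDefs

/-!
# Irreducible representations that vanish on a given closed ideal
-/

set_option autoImplicit false

open scoped ComplexOrder InnerProductSpace
open UniformSpace Completion

noncomputable section

namespace Pool.Agent.Y271.TI

open Pool.Agent.W658.Irrep Pool.Agent.TH496.EIirr

universe u

/-- irreducible representations exist, the commutant being trivial -/
theorem exists_irr (C : Type u) [CStarAlgebra C] [Nontrivial C] :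
    ∃ (K : Type u) (_ : NormedAddCommGroup K) (_ : InnerProductSpace ℂ K) (_ : CompleteSpace K)
      (ρ : C →⋆ₙₐ[ℂ] (K →L[ℂ] K)), ρ 1 = 1 ∧ Nontrivial K ∧
      ∀ T : K →L[ℂ] K, (∀ a, T * ρ a = ρ a * T) → ∃ t : ℂ, T = t • (1 : K →L[ℂ] K) := by
  obtain ⟨K, i1, i2, i3, ρ, ξ, φ, hφ, hρ1, hξ, hdense, hφξ⟩ := exists_rep (C := C) (1 : C)
  refine ⟨K, i1, i2, i3, ρ, hρ1, ⟨ξ, 0, ?_⟩, scalar_all ρ (fun T hTa hT0 hT1 =>
    scalar_pos ρ ξ hφ hρ1 hξ hdense hφξ T hTa hT0 hT1)⟩
  intro h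
  rw [h, norm_zero] at hξ
  exact zero_ne_one hξ

/-- two-sided ideals, as sets -/
structure IsI {C : Type u} [CStarAlgebra C] (J : Set C) : Prop where
  zero : (0 : C) ∈ J
  add : ∀ x ∈ J, ∀ y ∈ J, x + y ∈ J
  mul_left : ∀ (a : C), ∀ x ∈ J, a * x ∈ J
  mul_right : ∀ (a : C), ∀ x ∈ J, x * a ∈ J

variable {C : Type u} [CStarAlgebra C]

lemma IsI.smul {J : Set C} (h : IsI J) (c : ℂ) (x : C) (hx : x ∈ J) : c • x ∈ J := by
  have := h.mul_left (c • (1 : C)) x hx
  rwa [smul_mul_assoc, one_mul] at this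

lemma IsI.one_le {J : Set C} (h : IsI J) (h1 : (1 : C) ∉ J) (x : C) (hx : x ∈ J) :
    1 ≤ ‖(1 : C) - x‖ := by
  by_contra hlt
  push Not at hlt
  have hu : IsUnit (1 - (1 - x)) := isUnit_one_sub_of_norm_lt_one hlt
  rw [sub_sub_cancel] at hu
  obtain ⟨u, hu⟩ := hu
  apply h1
  have h2 := h.mul_left (↑u⁻¹ : C) x hx
  rwa [← hu, Units.inv_mul] at h2

lemma IsI.cl {J : Set C} (h : IsI J) : IsI (closure J) where
  zero := subset_closure h.zero
  add x hx y hy := by
    have h1 : ∀ p ∈ closure (J ×ˢ J), p.1 + p.2 ∈ closure J := by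
      intro p hp
      exact map_mem_closure (f := fun p : C × C => p.1 + p.2) (by fun_prop) hp
        (fun q hq => h.add _ hq.1 _ hq.2)
    exact h1 (x, y) (by rw [closure_prod_eq]; exact ⟨hx, hy⟩)
  mul_left a x hx := map_mem_closure (f := fun x : C => a * x) (by fun_prop) hx
    (fun y hy => h.mul_left a y hy)
  mul_right a x hx := map_mem_closure (f := fun x : C => x * a) (by fun_prop) hx
    (fun y hy => h.mul_right a y hy)

/-- maximal ideals -/
theorem exists_max_ideal (C : Type u) [CStarAlgebra C] [Nontrivial C] :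
    ∃ M : Set C, IsI M ∧ IsClosed M ∧ (1 : C) ∉ M ∧
      ∀ J : Set C, IsI J → (1 : C) ∉ J → M ⊆ J → J = M := by
  obtain ⟨M, -, hM⟩ := zorn_subset_nonempty {J : Set C | IsI J ∧ (1 : C) ∉ J} (by
    intro c hc hchain hne
    refine ⟨⋃₀ c, ⟨⟨?_, ?_, ?_, ?_⟩, ?_⟩, fun s hs => Set.subset_sUnion_of_mem hs⟩
    · obtain ⟨s, hs⟩ := hne
      exact ⟨s, hs, (hc hs).1.zero⟩
    · rintro x ⟨s, hs, hx⟩ y ⟨t, ht, hy⟩
      rcases hchain.total hs ht with h | h
      · exact ⟨t, ht, (hc ht).1.add _ (h hx) _ hy⟩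
      · exact ⟨s, hs, (hc hs).1.add _ hx _ (h hy)⟩
    · rintro a x ⟨s, hs, hx⟩
      exact ⟨s, hs, (hc hs).1.mul_left a x hx⟩
    · rintro a x ⟨s, hs, hx⟩
      exact ⟨s, hs, (hc hs).1.mul_right a x hx⟩
    · rintro ⟨s, hs, hx⟩
      exact (hc hs).2 hx) {0} (by
    refine ⟨⟨rfl, ?_, ?_, ?_⟩, ?_⟩
    · rintro x rfl y rfl
      simp
    · rintro a x rfl
      simp
    · rintro a x rfl
      simp
    · intro h
      exact one_ne_zero h)
  have hmax : ∀ J : Set C, IsI J → (1 : C) ∉ J → M ⊆ J → J = M := by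
    intro J hJ h1 hMJ
    exact (hM.eq_of_subset ⟨hJ, h1⟩ hMJ).symm
  refine ⟨M, hM.prop.1, ?_, hM.prop.2, hmax⟩
  have h1 : closure M = M := by
    apply hmax _ hM.prop.1.cl ?_ subset_closure
    intro h
    rw [Metric.mem_closure_iff] at h
    obtain ⟨x, hx, hd⟩ := h 1 one_pos
    have := hM.prop.1.one_le hM.prop.2 x hx
    rw [dist_eq_norm] at hd
    linarith
  exact closure_eq_iff_isClosed.1 h1

/-- a state that vanishes on a closed ideal -/
theorem exists_state (M : Set C) (hM : IsI M) (hc : IsClosed M) (h1 : (1 : C) ∉ M) :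
    ∃ g : C →L[ℂ] ℂ, ‖g‖ = 1 ∧ g 1 = 1 ∧ ∀ x ∈ M, g x = 0 := by
  let S : Submodule ℂ C :=
    { carrier := M
      zero_mem' := hM.zero
      add_mem' := fun {x y} hx hy => hM.add x hx y hy
      smul_mem' := fun c x hx => hM.smul c x hx }
  haveI : IsClosed (S : Set C) := hc
  have hnt : Nontrivial C := ⟨1, 0, fun h => h1 (h ▸ hM.zero)⟩
  have hn1 : ‖(Submodule.Quotient.mk (1 : C) : C ⧸ S)‖ = 1 := by
    apply le_antisymm
    · refine (Submodule.Quotient.norm_mk_le S (1 : C)).trans ?_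
      rw [CStarRing.norm_one]
    · have h2 : ‖(Submodule.Quotient.mk (1 : C) : C ⧸ S)‖ = Metric.infDist (1 : C) S :=
        QuotientAddGroup.norm_mk (S := S.toAddSubgroup) (1 : C)
      rw [h2, Metric.le_infDist (s := (S : Set C)) ⟨0, hM.zero⟩]
      intro y hy
      rw [dist_eq_norm]
      exact hM.one_le h1 y hy
  obtain ⟨g0, hg0, hg1⟩ := exists_dual_vector'' ℂ (Submodule.Quotient.mk (1 : C) : C ⧸ S)
  rw [hn1] at hg1
  let g : C →L[ℂ] ℂ := g0.comp S.mkQL
  have hgx : ∀ x, g x = g0 (Submodule.Quotient.mk x) := fun x => rfl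
  have hg1' : g 1 = 1 := by
    rw [hgx, hg1]
    simp
  refine ⟨g, ?_, hg1', ?_⟩
  · apply le_antisymm
    · refine ContinuousLinearMap.opNorm_le_bound _ zero_le_one fun x => ?_
      rw [hgx]
      refine (g0.le_opNorm _).trans ?_
      have := Submodule.Quotient.norm_mk_le S x
      calc ‖g0‖ * ‖(Submodule.Quotient.mk x : C ⧸ S)‖ ≤ 1 * ‖x‖ := by gcongr
        _ = 1 * ‖x‖ := rfl
    · have := g.le_opNorm 1
      rw [hg1', norm_one, CStarRing.norm_one, mul_one] at this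
      exact this
  · intro x hx
    rw [hgx, (Submodule.Quotient.mk_eq_zero S).2 hx, map_zero]

/-- the GNS representation -/
theorem gns (g : C →L[ℂ] ℂ) (hn : ‖g‖ = 1) (h1 : g 1 = 1) :
    ∃ (K : Type u) (_ : NormedAddCommGroup K) (_ : InnerProductSpace ℂ K) (_ : CompleteSpace K)
      (ρ : C →⋆ₙₐ[ℂ] (K →L[ℂ] K)) (ξ : K), ρ 1 = 1 ∧ ‖ξ‖ = 1 ∧
      (∀ a, g a = ⟪ξ, ρ a ξ⟫_ℂ) ∧
      (∀ x y : K, (∀ a : C, ⟪x, ρ a ξ⟫_ℂ = ⟪y, ρ a ξ⟫_ℂ) → x = y) := by
  let _ := CStarAlgebra.spectralOrder C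
  have _ := CStarAlgebra.spectralOrderedRing C
  let f : C →ₚ[ℂ] ℂ := PositiveLinearMap.mk₀ (g : C →ₗ[ℂ] ℂ) (by
      intro x hx
      obtain ⟨y, rfl⟩ := CStarAlgebra.nonneg_iff_eq_star_mul_self.1 hx
      exact pos_of_norm g hn h1 y)
  have hf : ∀ x, f x = g x := fun x => rfl
  let ρ : C →⋆ₙₐ[ℂ] (f.GNS →L[ℂ] f.GNS) := f.gnsNonUnitalStarAlgHom
  let ξ : f.GNS := (f.toPreGNS (1 : C) : f.GNS)
  have hρ : ∀ a b : C, ρ a (f.toPreGNS b : f.GNS) = (f.toPreGNS (a * b) : f.GNS) := by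
    intro a b
    show f.gnsNonUnitalStarAlgHom a (f.toPreGNS b : f.GNS) = _
    rw [PositiveLinearMap.gnsNonUnitalStarAlgHom_apply_coe]
    rfl
  have hin : ∀ a b : C, ⟪(f.toPreGNS a : f.GNS), (f.toPreGNS b : f.GNS)⟫_ℂ = g (star a * b) := by
    intro a b
    rw [UniformSpace.Completion.inner_coe, PositiveLinearMap.preGNS_inner_def]
    rfl
  have hρξ : ∀ a, ρ a ξ = (f.toPreGNS a : f.GNS) := by
    intro a
    rw [hρ, mul_one]
  have hdense : ∀ x y : f.GNS, (∀ a : C, ⟪x, ρ a ξ⟫_ℂ = ⟪y, ρ a ξ⟫_ℂ) → x = y := by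
    intro x y h
    have h2 : ∀ z : f.GNS, ⟪x, z⟫_ℂ = ⟪y, z⟫_ℂ := by
      intro z
      induction z using UniformSpace.Completion.induction_on with
      | hp => exact isClosed_eq (by fun_prop) (by fun_prop)
      | ih z =>
        have := h (f.ofPreGNS z)
        rw [hρξ] at this
        exact this
    exact ext_inner_right ℂ h2
  have hρ1 : ρ 1 = 1 := by
    ext z
    induction z using UniformSpace.Completion.induction_on with
    | hp => exact isClosed_eq (by fun_prop) (by fun_prop)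
    | ih z =>
      have := hρ 1 (f.ofPreGNS z)
      rw [one_mul] at this
      exact this
  have hξ : ‖ξ‖ = 1 := by
    have h2 := hin 1 1
    rw [star_one, one_mul, h1] at h2
    have h3 : ⟪ξ, ξ⟫_ℂ = 1 := h2
    rw [inner_self_eq_norm_sq_to_K] at h3
    have h4 : ((‖ξ‖ ^ 2 : ℝ) : ℂ) = ((1 : ℝ) : ℂ) := by
      push_cast
      exact h3
    have h5 : ‖ξ‖ ^ 2 = 1 := Complex.ofReal_injective h4
    nlinarith [norm_nonneg ξ]
  have hφξ : ∀ a, g a = ⟪ξ, ρ a ξ⟫_ℂ := by
    intro a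
    rw [hρξ, hin, star_one, one_mul]
  exact ⟨f.GNS, inferInstance, inferInstance, inferInstance, ρ, ξ, hρ1, hξ, hφξ, hdense⟩

/-- irreducible representations vanishing on a closed ideal -/
theorem exists_irr_kill (M : Set C) (hM : IsI M) (hc : IsClosed M) (h1 : (1 : C) ∉ M) :
    ∃ (K : Type u) (_ : NormedAddCommGroup K) (_ : InnerProductSpace ℂ K) (_ : CompleteSpace K)
      (σ : C →⋆ₙₐ[ℂ] (K →L[ℂ] K)), σ 1 = 1 ∧ Nontrivial K ∧ (∀ x ∈ M, σ x = 0) ∧
      ∀ T : K →L[ℂ] K, (∀ a, T * σ a = σ a * T) → ∃ t : ℂ, T = t • (1 : K →L[ℂ] K) := by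
  obtain ⟨g, hg, hg1, hgM⟩ := exists_state M hM hc h1
  obtain ⟨H, _, _, _, ρ, ξ, hρ1, hξ, hgξ, hdense⟩ := gns g hg hg1
  have hρM : ∀ x ∈ M, ρ x = 0 := by
    intro m hm
    ext x
    apply hdense
    intro a
    have h2 : ρ (star m * a) ξ = 0 := by
      rw [← norm_eq_zero, ← sq_eq_zero_iff]
      have h3 : (0 : ℂ) = ⟪ξ, ρ (star (star m * a) * (star m * a)) ξ⟫_ℂ := by
        rw [← hgξ, hgM]
        rw [star_mul, star_star]
        have h4 : star a * m * (star m * a) = (star a) * (m * (star m * a)) := by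
          simp only [mul_assoc]
        rw [h4]
        exact hM.mul_left _ _ (hM.mul_right _ _ hm)
      rw [map_mul, map_star, ContinuousLinearMap.star_eq_adjoint] at h3
      have h5 : ⟪ξ, ((ContinuousLinearMap.adjoint (ρ (star m * a))) * ρ (star m * a)) ξ⟫_ℂ =
          ⟪ρ (star m * a) ξ, ρ (star m * a) ξ⟫_ℂ := by
        show ⟪ξ, (ContinuousLinearMap.adjoint (ρ (star m * a))) (ρ (star m * a) ξ)⟫_ℂ = _
        rw [ContinuousLinearMap.adjoint_inner_right]
      rw [h5, inner_self_eq_norm_sq_to_K] at h3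
      have h6 : ((‖ρ (star m * a) ξ‖ ^ 2 : ℝ) : ℂ) = ((0 : ℝ) : ℂ) := by
        push_cast
        exact h3.symm
      exact Complex.ofReal_injective h6
    rw [zero_apply, inner_zero_left, ← ContinuousLinearMap.adjoint_inner_right,
      ← ContinuousLinearMap.star_eq_adjoint, ← map_star]
    have h7 : ρ (star m) (ρ a ξ) = ρ (star m * a) ξ := by
      rw [map_mul]; rfl
    rw [h7, h2, inner_zero_right]
  -- the closure of the range
  let ρu : C →⋆ₐ[ℂ] (H →L[ℂ] H) :=
    { toFun := ρ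
      map_one' := hρ1
      map_mul' := fun x y => map_mul ρ x y
      map_zero' := map_zero ρ
      map_add' := fun x y => map_add ρ x y
      commutes' := by
        intro r
        show ρ (algebraMap ℂ C r) = algebraMap ℂ _ r
        rw [Algebra.algebraMap_eq_smul_one, map_smul, hρ1, Algebra.algebraMap_eq_smul_one]
      map_star' := fun x => map_star ρ x }
  let R : StarSubalgebra ℂ (H →L[ℂ] H) := ρu.range.topologicalClosure
  have hRcl : IsClosed (R : Set (H →L[ℂ] H)) := StarSubalgebra.isClosed_topologicalClosure _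
  letI : CStarAlgebra R := StarSubalgebra.cstarAlgebra R (h_closed := hRcl)
  have hHn : Nontrivial H := ⟨ξ, 0, by
    intro h
    rw [h, norm_zero] at hξ
    exact zero_ne_one hξ⟩
  haveI : Nontrivial R := by
    refine ⟨1, 0, fun h => ?_⟩
    have h2 : (1 : H →L[ℂ] H) = 0 := congrArg Subtype.val h
    exact one_ne_zero h2
  obtain ⟨K, _, _, _, σ', hσ1, hK, hcomm⟩ := exists_irr R
  have hmem : ∀ c, ρ c ∈ R := fun c => StarSubalgebra.le_topologicalClosure _ ⟨c, rfl⟩
  let j : C →⋆ₙₐ[ℂ] R :=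
    { toFun := fun c => ⟨ρ c, hmem c⟩
      map_smul' := fun r x => Subtype.ext (map_smul ρ r x)
      map_zero' := Subtype.ext (map_zero ρ)
      map_add' := fun x y => Subtype.ext (map_add ρ x y)
      map_mul' := fun x y => Subtype.ext (map_mul ρ x y)
      map_star' := fun x => Subtype.ext (map_star ρ x) }
  refine ⟨K, inferInstance, inferInstance, inferInstance, σ'.comp j, ?_, hK, ?_, ?_⟩
  · show σ' (j 1) = 1
    have : j 1 = 1 := Subtype.ext hρ1
    rw [this, hσ1]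
  · intro x hx
    show σ' (j x) = 0
    have : j x = 0 := Subtype.ext (hρM x hx)
    rw [this, map_zero]
  · intro T hT
    apply hcomm
    intro a
    have hσc : Continuous σ' :=
      (AddMonoidHomClass.continuous_of_bound σ' 1 (fun x => by
        rw [one_mul]; exact NonUnitalStarAlgHom.norm_apply_le σ' x))
    have hdr : Dense (Set.range j) := by
      intro x
      rw [Metric.mem_closure_iff]
      intro ε hε
      have hx : (x : H →L[ℂ] H) ∈ closure (ρu.range : Set (H →L[ℂ] H)) := x.2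
      rw [Metric.mem_closure_iff] at hx
      obtain ⟨y, ⟨c, hy⟩, hxy⟩ := hx ε hε
      refine ⟨j c, ⟨c, rfl⟩, ?_⟩
      rw [Subtype.dist_eq]
      show dist (x : H →L[ℂ] H) (ρ c) < ε
      have : ρ c = y := hy
      rw [this]
      exact hxy
    have hcl : IsClosed {a : R | T * σ' a = σ' a * T} :=
      isClosed_eq (by fun_prop) (by fun_prop)
    have hsub : Set.range j ⊆ {a : R | T * σ' a = σ' a * T} := by
      rintro _ ⟨c, rfl⟩
      exact hT c
    have := hcl.closure_subset_iff.2 hsub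
    exact this (hdr a)

end Pool.Agent.Y271.TI
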